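import Pool.Agent.Helper30_SkewP4.Stmts

/-!
# MODEL: existence of the model
-/

set_option autoImplicit false

open scoped Matrix TensorProduct

namespace Pool.Agent.SkewP4.H47

open Pool.Agent.SkewP4

theorem rho_ne : rhoR ≠ 0 := by
  intro h
  have h1 := congrArg (MvPolynomial.eval (fun a : Ix => match a with
    | Sum.inl _ => (1 : ℂ)
    | Sum.inr _ => 1)) h
  simp [rhoR] at h1

theorem mem_TP (C : Type) [CommRing C] [Algebra ℂ C] {p q : ℕ} (f : C) {w : E}
    (hw : w ∈ Epq p q) : f ⊗ₜ[ℂ] w ∈ TP C p q :=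
  ⟨f ⊗ₜ[ℂ] ⟨w, hw⟩, by simp⟩

theorem mem_TK (hB : OpbStmt) {p k : ℕ} {f : R} {w : E} (hw : w ∈ Epq p 0)
    (hf : Ny f = (k : ℂ) • f) : f ⊗ₜ[ℂ] w ∈ TK p 0 k := by
  have h1 := mem_TP R f hw
  refine ⟨⟨h1, ?_⟩, ?_⟩
  · exact hB.K_zero p _ h1
  · show f ⊗ₜ[ℂ] w ∈ LinearMap.ker _
    rw [LinearMap.mem_ker, LinearMap.sub_apply, LinearMap.smul_apply, LinearMap.id_apply,
      opNy, LinearMap.rTensor_tmul, hf, TensorProduct.smul_tmul']
    simp

theorem py_rename (j : Fin 5) (f : S) : MvPolynomial.pderiv (Sum.inr j)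
    (MvPolynomial.rename Sum.inl f : R) = 0 := by
  induction f using MvPolynomial.induction_on with
  | C a => simp
  | add p q hp hq => rw [map_add, map_add, hp, hq, add_zero]
  | mul_X p i hp =>
    rw [map_mul, MvPolynomial.rename_X, Derivation.leibniz, hp, MvPolynomial.pderiv_X_of_ne]
    · simp
    · simp

theorem Ny_rename (f : S) : Ny (MvPolynomial.rename Sum.inl f : R) = 0 := by
  rw [Ny, LinearMap.sum_apply]
  apply Finset.sum_eq_zero
  intro j _
  show LinearMap.mulLeft ℂ _ (MvPolynomial.pderiv (Sum.inr j) _) = 0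
  rw [py_rename, map_zero]

theorem Ny_one : Ny (1 : R) = 0 := by
  have := Ny_rename 1
  rwa [map_one] at this

theorem Ny_y (j : Fin 5) : Ny (MvPolynomial.X (Sum.inr j) : R) = MvPolynomial.X (Sum.inr j) := by
  rw [Ny, LinearMap.sum_apply, Finset.sum_eq_single j]
  · show LinearMap.mulLeft ℂ _ (MvPolynomial.pderiv (Sum.inr j) _) = _
    rw [MvPolynomial.pderiv_X_self]
    simp
  · intro k _ hk
    show LinearMap.mulLeft ℂ _ (MvPolynomial.pderiv (Sum.inr k) _) = 0
    rw [MvPolynomial.pderiv_X_of_ne, map_zero]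
    intro h
    exact hk (Sum.inr_injective h).symm
  · intro h
    exact absurd (Finset.mem_univ j) h

theorem opD_zero {f : R} (hf : ∀ j, MvPolynomial.pderiv (Sum.inr j) f = 0) (w : E) :
    opD (f ⊗ₜ[ℂ] w) = 0 := by
  rw [opD, opPsi, LinearMap.sum_apply]
  apply Finset.sum_eq_zero
  intro j _
  rw [TensorProduct.map_tmul]
  have : py j f = 0 := hf j
  rw [this, TensorProduct.zero_tmul]

/-- MODEL -/
theorem model (hFrd : FrdStmt) (hL : LsupStmt) (hJ : JtStmt) (hG : GgStmt) (hGex : GexStmt)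
    (hGze : GzeStmt) (hTkz : TkzStmt) (hTz0 : Tz0Stmt) (hTnu : TnuStmt) (hE1 : Ext1Stmt)
    (hE2 : Ext2Stmt) (hOr : OprStmt) (hOb : OpbStmt) (hTne : TneStmt) : ModelStmt := by
  obtain ⟨pd, p1, p2, p3⟩ := hFrd
  have hpd : PdProp pd := ⟨p1, p2, p3⟩
  have gen1 : ∀ j : Fin 5, gen (Sum.inl j) ∈ Epq 1 0 := by
    intro j
    have h1 := hE2.psi_x 0 0 j 1 hE2.one_mem
    have h2 : psi (Sum.inl j) 1 = gen (Sum.inl j) := by
      rw [psi, LinearMap.mulLeft_apply, mul_one]
    rw [h2] at h1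
    exact h1
  have hgen : ∀ a b, phi a (gen b) = if a = b then 1 else 0 := by
    intro a b
    have h1 := hE1.phi_psi a b 1
    rw [hE1.phi_one, map_zero, add_zero] at h1
    have h2 : psi b 1 = gen b := by
      rw [psi, LinearMap.mulLeft_apply, mul_one]
    rwa [h2] at h1
  have dZ : ∀ p, ∀ z ∈ TK p 0 0, opD z = 0 := by
    intro p z hz
    have h1 : opNy z = 0 := by
      have : z ∈ LinearMap.ker (opNy - (((0 : ℕ) : ℂ) - ((0 : ℕ) : ℂ)) • LinearMap.id) := hz.2
      rw [LinearMap.mem_ker, LinearMap.sub_apply, LinearMap.smul_apply, LinearMap.id_apply] at this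
      simpa using this
    apply hTne (-1) _ (by norm_num)
    rw [hOr.Ny_D, h1, map_zero, zero_sub]
    have h2 : ((-1 : ℤ) : ℂ) = -1 := by norm_num
    rw [h2]
    exact (neg_one_smul ℂ (opD z)).symm
  refine ⟨Lam, inferInstance, inferInstance, ⟨?_⟩⟩
  exact
  { s := sLam
    d := dLam pd
    i := iLam
    comm_even := hL.comm_even
    comm_odd := hL.comm_odd
    d_mul := hL.d_mul pd hpd
    i_mul := hL.i_mul
    s_d := hL.s_d pd hpd
    s_i := hL.s_i
    d_d := hL.d_d pd hpd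
    i_i := hL.i_i
    d_i := hL.d_i pd hpd
    G := fun p q =>
      { carrier := {a | InG p q a}
        add_mem' := fun {a b} ha hb => hG.add p q a b ha hb
        zero_mem' := hG.zero p q
        smul_mem' := fun c a ha => hG.smul p q c a ha }
    s_G := hG.s
    one_mem := hG.one
    mul_mem := hG.mul
    d_mem := hG.d pd hpd
    i_mem := hG.i
    i_zero := hG.i0
    inc := jT.comp ((Algebra.TensorProduct.includeLeft : R →ₐ[ℂ] T).comp
      (MvPolynomial.rename Sum.inl : S →ₐ[ℂ] R))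
    inc_mem := fun f => ⟨0, (MvPolynomial.rename Sum.inl f : R) ⊗ₜ[ℂ] (1 : E),
      mem_TK hOb hE2.one_mem (by rw [Ny_rename, Nat.cast_zero, zero_smul]), by
        rw [pow_zero, one_mul]
        rfl⟩
    d_inc := fun f => by
      show dLam pd (jT ((MvPolynomial.rename Sum.inl f : R) ⊗ₜ[ℂ] (1 : E))) = 0
      rw [hJ.d pd hpd, opD_zero (fun j => py_rename j f), map_zero]
    dx := fun j => jT ((1 : R) ⊗ₜ[ℂ] gen (Sum.inl j))
    dx_mem := fun j => ⟨0, (1 : R) ⊗ₜ[ℂ] gen (Sum.inl j),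
      mem_TK hOb (gen1 j) (by rw [Ny_one, Nat.cast_zero, zero_smul]), by
        rw [pow_zero, one_mul]⟩
    d_dx := fun j => by
      rw [hJ.d pd hpd, opD_zero (fun j => by simp), map_zero]
    i_dx := fun j => by
      rw [hJ.i]
      show jT _ = jT ((MvPolynomial.rename Sum.inl (MvPolynomial.X j) : R) ⊗ₜ[ℂ] (1 : E))
      congr 1
      rw [opI, opPhi, LinearMap.sum_apply, Finset.sum_eq_single j]
      · rw [TensorProduct.map_tmul, hgen, if_pos rfl, mx, LinearMap.mulLeft_apply, mul_one,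
          MvPolynomial.rename_X]
      · intro k _ hk
        rw [TensorProduct.map_tmul, hgen, if_neg, TensorProduct.tmul_zero]
        intro h
        exact hk (Sum.inl_injective h)
      · intro h
        exact absurd (Finset.mem_univ j) h
    y := fun j => ((algebraMap R L (MvPolynomial.X (Sum.inr j)) / algebraMap R L rhoR : L)) ⊗ₜ[ℂ]
      (1 : E)
    y_mem := fun j => ⟨1, (MvPolynomial.X (Sum.inr j) : R) ⊗ₜ[ℂ] (1 : E),
      mem_TK hOb hE2.one_mem (by rw [Ny_y, Nat.cast_one, one_smul]), by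
        have h0 : algebraMap R L rhoR ≠ 0 := by
          rw [Ne, IsFractionRing.to_map_eq_zero_iff]
          exact rho_ne
        rw [pow_one, rhoL, Algebra.TensorProduct.tmul_mul_tmul, mul_one, mul_div_cancel₀ _ h0]
        rfl⟩
    sum_y := by
      have h0 : algebraMap R L rhoR ≠ 0 := by
        rw [Ne, IsFractionRing.to_map_eq_zero_iff]
        exact rho_ne
      have h1 : ∀ j : Fin 5, (jT.comp ((Algebra.TensorProduct.includeLeft : R →ₐ[ℂ] T).comp
          (MvPolynomial.rename Sum.inl : S →ₐ[ℂ] R))) (MvPolynomial.X j) *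
          (((algebraMap R L (MvPolynomial.X (Sum.inr j)) / algebraMap R L rhoR : L)) ⊗ₜ[ℂ]
            (1 : E)) =
          (algebraMap R L (MvPolynomial.X (Sum.inl j) * MvPolynomial.X (Sum.inr j)) /
            algebraMap R L rhoR : L) ⊗ₜ[ℂ] (1 : E) := by
        intro j
        have h2 : (jT.comp ((Algebra.TensorProduct.includeLeft : R →ₐ[ℂ] T).comp
          (MvPolynomial.rename Sum.inl : S →ₐ[ℂ] R))) (MvPolynomial.X j) =
          (algebraMap R L (MvPolynomial.X (Sum.inl j)) : L) ⊗ₜ[ℂ] (1 : E) := by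
          show jT ((MvPolynomial.rename Sum.inl (MvPolynomial.X j) : R) ⊗ₜ[ℂ] (1 : E)) = _
          rw [MvPolynomial.rename_X]
          rfl
        rw [h2, Algebra.TensorProduct.tmul_mul_tmul, mul_one, map_mul, mul_div_assoc]
      rw [Finset.sum_congr rfl fun j _ => h1 j, ← TensorProduct.sum_tmul, ← Finset.sum_div,
        ← map_sum]
      have h3 : ∑ j : Fin 5, (MvPolynomial.X (Sum.inl j) * MvPolynomial.X (Sum.inr j) : R) = rhoR :=
        rfl
      rw [h3, div_self h0]
      rfl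
    Z := fun p => Submodule.map jT.toLinearMap (TK p 0 0)
    Z_le := by
      rintro p _ ⟨z, hz, rfl⟩
      exact ⟨0, z, hz, by rw [pow_zero, one_mul]; rfl⟩
    d_Z := by
      rintro p _ ⟨z, hz, rfl⟩
      show dLam pd (jT z) = 0
      rw [hJ.d pd hpd, dZ p z hz, map_zero]
    closed_zero := by
      intro p a ha hd
      obtain ⟨z, hz, rfl⟩ := hGze pd hpd p a ha hd
      exact ⟨z, hz, rfl⟩
    Z_zero := by
      rintro _ ⟨z, hz, rfl⟩
      obtain ⟨f, rfl⟩ := hTz0 z hz
      exact ⟨f, rfl⟩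
    exact := by
      intro p q a hq ha hd
      obtain ⟨b, hb, hb2⟩ := hGex pd hpd p q a hq ha hd
      exact ⟨b, hb, hb2⟩
    koszul := by
      rintro _ ⟨z, hz, rfl⟩ h0
      have h1 : iLam (jT z) = 0 := h0
      rw [hJ.i] at h1
      have h2 : opI z = 0 := hJ.inj (by rw [h1, map_zero])
      obtain ⟨u, hu, huz⟩ := hTkz z hz h2
      refine ⟨jT u, ⟨u, hu, rfl⟩, ?_⟩
      rw [hJ.i, huz]
      rfl
    nonunit := by
      rintro f _ ⟨z, hz, rfl⟩ h0
      have h1 : iLam (jT z) = jT ((MvPolynomial.rename Sum.inl f : R) ⊗ₜ[ℂ] (1 : E)) := h0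
      rw [hJ.i] at h1
      exact hTnu f z (hJ.inj h1) }

end Pool.Agent.SkewP4.H47
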