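import Pool.Agent.Helper30_SkewP4.Forms

/-!
# RK: consequences of rank two
-/

set_option autoImplicit false

open scoped Matrix

namespace Pool.Agent.SkewP4.H47

open Pool.Agent.SkewP4

variable {Λ : Type} [Ring Λ] [Algebra ℂ Λ] {M : Model Λ} {n : ℕ}

theorem pi_A (W : LamData M n) (B : Basic W) : W.pi * W.A = 0 := by
  have h1 : (W.A * W.pi)ᵀ = 0 := by rw [W.A_pi, Matrix.transpose_zero]
  rw [B.evA.transpose_mul, W.A_skew, W.pi_skew, neg_mul_neg] at h1
  exact h1

theorem trP (W : LamData M n) : W.P.trace = 2 := by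
  rw [LamData.P, Matrix.trace_sub, W.trQA, Matrix.trace_one, Fintype.card_fin]
  have : ((n : ℕ) : Λ) = algebraMap ℂ Λ (n : ℂ) := by simp
  rw [this, ← map_sub]
  have h2 : (n : ℂ) - ((n : ℂ) - 2) = 2 := by ring
  rw [h2]
  exact map_ofNat _ 2

theorem two_half (a : Λ) : (2 : ℂ)⁻¹ • (a + a) = a := by
  rw [← two_smul ℂ a, smul_smul]
  norm_num

theorem wedge2 (W : LamData M n) (B : Basic W) (X : Matrix (Fin n) (Fin n) Λ) (hX : Xᵀ = -X)
    (h1 : W.P * X = X) (h2 : X * W.P' = X) :
    X = ((2 : ℂ)⁻¹ • (W.epsᵀ * X).trace) • W.pi := by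
  have hev : ∀ a b (z : Λ), W.P a b * z = z * W.P a b :=
    fun a b z => M.comm_even _ _ (B.evP.apply a b)
  have hskew : ∀ a b, X a b = -X b a := by
    intro a b
    have := congrFun (congrFun hX b) a
    simpa using this
  have hP' : ∀ a b, W.P' a b = W.P b a := by
    intro a b
    rw [← B.PT]
    rfl
  have e1 : ∀ a b, X a b = ∑ c, ∑ e, W.P a c * W.P b e * X c e := by
    intro a b
    have h3 : X a b = (W.P * (X * W.P')) a b := by rw [h2, h1]
    rw [h3, Matrix.mul_apply]
    refine Finset.sum_congr rfl fun c _ => ?_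
    rw [Matrix.mul_apply, Finset.mul_sum]
    refine Finset.sum_congr rfl fun e _ => ?_
    rw [hP', ← hev b e, mul_assoc]
  have e2 : ∀ a b, X a b = ∑ c, ∑ e, -(W.P a e * W.P b c * X c e) := by
    intro a b
    rw [e1 a b, Finset.sum_comm]
    refine Finset.sum_congr rfl fun c _ => ?_
    refine Finset.sum_congr rfl fun e _ => ?_
    rw [hskew e c, mul_neg]
  have e3 : ∀ a b, X a b + X a b = W.pi a b * (W.epsᵀ * X).trace := by
    intro a b
    have t0 : (W.epsᵀ * X).trace = ∑ c, ∑ e, W.eps c e * X c e := by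
      rw [Finset.sum_comm]
      rfl
    have t1 : X a b + X a b = ∑ c, ∑ e, W.pi a b * (W.eps c e * X c e) := by
      have t2 : X a b + X a b = (∑ c, ∑ e, W.P a c * W.P b e * X c e) +
          ∑ c, ∑ e, -(W.P a e * W.P b c * X c e) := by
        rw [← e1 a b, ← e2 a b]
      rw [t2, ← Finset.sum_add_distrib]
      refine Finset.sum_congr rfl fun c _ => ?_
      rw [← Finset.sum_add_distrib]
      refine Finset.sum_congr rfl fun e _ => ?_
      have h4 : W.P a c * W.P b e - W.P a e * W.P b c = W.pi a b * W.eps c e :=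
        W.wedge a b c e
      rw [← mul_assoc, ← h4, sub_mul, sub_eq_add_neg]
    rw [t1, t0, Finset.mul_sum]
    refine Finset.sum_congr rfl fun c _ => ?_
    rw [Finset.mul_sum]
  ext a b
  rw [Matrix.smul_apply, smul_eq_mul, smul_mul_assoc,
    ← M.comm_even _ _ (B.evpi.apply a b), ← e3 a b, two_half]

theorem pi_epsT (W : LamData M n) (B : Basic W) : W.pi * W.epsᵀ = W.P := by
  ext a c
  rw [Matrix.mul_apply]
  have h1 : ∀ b, W.pi a b * W.epsᵀ b c = W.P a c * W.P b b - W.P a b * W.P b c :=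
    fun b => (W.wedge a b c b).symm
  rw [Finset.sum_congr rfl fun b _ => h1 b, Finset.sum_sub_distrib, ← Finset.mul_sum,
    ← Matrix.mul_apply, B.PP]
  have h2 : ∑ b, W.P b b = 2 := trP W
  rw [h2, mul_two, add_sub_cancel_right]

/-- RK -/
theorem rk (hB : BasicStmt) : RkStmt := by
  intro Λ _ _ M n W hn
  have B := hB Λ M n W
  have wed := wedge2 W B
  have Ppi : W.P * W.pi = W.pi := by
    rw [LamData.P, sub_mul, one_mul, mul_assoc, W.A_pi, mul_zero, sub_zero]
  have piP' : W.pi * W.P' = W.pi := by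
    rw [LamData.P', mul_sub, mul_one, ← mul_assoc, pi_A W B, zero_mul, sub_zero]
  have pe := pi_epsT W B
  have ep : W.epsᵀ * W.pi = W.P' := by
    have h1 : (W.pi * W.epsᵀ)ᵀ = W.P' := by rw [pe, B.PT]
    rw [B.evpi.transpose_mul, Matrix.transpose_transpose, W.pi_skew, mul_neg, ← neg_mul,
      ← W.eps_skew] at h1
    exact h1
  refine ⟨wed, Ppi, piP', pe, ep, ?_⟩
  -- X = F pi + pi F^T
  have evt : M.s W.t = W.t := B.evF.trace
  have eveT : Ev M W.epsᵀ := B.eveps.transpose
  have evFT : Ev M W.Fᵀ := B.evF.transpose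
  have trPF : (W.P * W.F).trace = W.t := by rw [B.PF]; rfl
  have hX := wed (W.F * W.pi + W.pi * W.Fᵀ) (by
      rw [Matrix.transpose_add, B.evF.transpose_mul, B.evpi.transpose_mul,
        Matrix.transpose_transpose, W.pi_skew]
      simp only [neg_mul, mul_neg]
      abel)
    (by rw [mul_add, ← mul_assoc, ← mul_assoc, B.PF, Ppi])
    (by rw [add_mul, mul_assoc, mul_assoc, piP', B.FTP'])
  have tX : (W.epsᵀ * (W.F * W.pi + W.pi * W.Fᵀ)).trace = W.t + W.t := by
    rw [mul_add, Matrix.trace_add]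
    congr 1
    · rw [← mul_assoc, (eveT.mul B.evF).trace_mul_comm, ← mul_assoc, pe, trPF]
    · rw [← mul_assoc, ep, B.P'FT, Matrix.trace_transpose]
      rfl
  rw [tX, two_half] at hX
  -- X2 = F pi F^T
  have hX2 := wed (W.F * W.pi * W.Fᵀ) (by
      rw [(B.evF.mul B.evpi).transpose_mul, B.evF.transpose_mul, Matrix.transpose_transpose,
        W.pi_skew]
      simp only [neg_mul, mul_neg, mul_assoc])
    (by rw [← mul_assoc, ← mul_assoc, B.PF])
    (by rw [mul_assoc, B.FTP'])
  set c : Λ := (2 : ℂ)⁻¹ • (W.epsᵀ * (W.F * W.pi * W.Fᵀ)).trace with hc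
  have e1 : W.F * W.F * W.pi = W.t • (W.F * W.pi) - c • W.pi := by
    have h1 : W.F * (W.F * W.pi + W.pi * W.Fᵀ) = W.F * (W.t • W.pi) := by rw [hX]
    rw [mul_smul_ev evt, mul_add, ← mul_assoc, ← mul_assoc, hX2] at h1
    rw [← h1, add_sub_cancel_right]
  have e2 : W.F * W.F = W.t • W.F - c • W.P := by
    have h1 : W.F * W.F * W.pi * W.epsᵀ = (W.t • (W.F * W.pi) - c • W.pi) * W.epsᵀ := by rw [e1]
    rw [mul_assoc, pe, sub_mul, smul_mul', smul_mul', mul_assoc, mul_assoc, pe, B.FP] at h1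
    exact h1
  have e3 : c = W.de := by
    have h1 := congrArg Matrix.trace e2
    rw [Matrix.trace_sub, trace_smul', trace_smul', trP W] at h1
    have h2 : W.F.trace = W.t := rfl
    rw [h2, mul_two] at h1
    have h3 : c + c = W.t * W.t - (W.F * W.F).trace := by rw [h1]; abel
    rw [LamData.de, ← h3, two_half]
  rw [e3] at e2
  exact e2

end Pool.Agent.SkewP4.H47
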